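import Pool.Agent.Helper29.H2.St2

/-!
# Project H2, module EI: evaluation of the integral of the square
-/

set_option autoImplicit false

noncomputable section

namespace Pool.Agent.Helper29.H2

open Finset MeasureTheory
open Pool.Agent.Helper27.BG

theorem hEi : StEi := by
  intro hV1 hCm ι _ _ N n0 g H hN hn0 hH
  have hN0 : (0 : ℝ) < N := by exact_mod_cast hN
  -- the sum over `t`
  have h1 : ∀ i : ι → ℕ, ∑ t ∈ range N, GF N g H i t ^ 2 * (volume (c1 N i t)).toReal =
      ((H (∑ h, i h) : ℝ) ^ 2 * ∏ h, (g (i h) : ℝ) ^ 2) * ∑ t ∈ range N, (volume (c1 N i t)).toReal := by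
    intro i
    rw [mul_sum]
    refine sum_congr rfl fun t ht => ?_
    rw [GF, if_pos (mem_range.1 ht), mul_pow, prod_pow]
  constructor
  · have h2 : IG N (GF N g H : (ι → ℕ) → ℕ → ℝ) ≤
        ∑ i ∈ Fintype.piFinset (fun _ : ι => range N),
          ((H (∑ h, i h) : ℝ) ^ 2 * ∏ h, (g (i h) : ℝ) ^ 2) * (1 / (N : ℝ)) ^ Fintype.card ι := by
      unfold IG
      refine sum_le_sum fun i _ => ?_
      rw [h1]
      exact mul_le_mul_of_nonneg_left ((hV1 ι N hN).1 i N)
        (mul_nonneg (sq_nonneg _) (prod_nonneg fun h _ => sq_nonneg _))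
    have h3 := hCm ι g (fun S => (H S : ℝ) ^ 2) N n0 hn0 (fun S hS => by
      rw [hH S hS]
      simp)
    refine h2.trans (le_of_eq ?_)
    rw [← sum_mul, h3, AA]
    push_cast
    rw [one_div, inv_pow, div_eq_mul_inv]
  · intro hH0 hg0
    have h4 : ∀ (i : ι → ℕ) (t : ℕ), 0 ≤ GF N g H i t ^ 2 * (volume (c1 N i t)).toReal := fun i t =>
      mul_nonneg (sq_nonneg _) ENNReal.toReal_nonneg
    have h5 : 0 < GF N g H (fun _ : ι => 0) 0 ^ 2 * (volume (c1 N (fun _ : ι => 0) 0)).toReal := by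
      refine mul_pos ?_ (hV1 ι N hN).2
      rw [GF, if_pos hN]
      have h6 : (H 0 : ℝ) ≠ 0 := by exact_mod_cast hH0
      have h7 : (g 0 : ℝ) ≠ 0 := by exact_mod_cast hg0
      simp only [sum_const_zero, prod_const]
      have h8 : (H 0 : ℝ) * (g 0 : ℝ) ^ (univ : Finset ι).card ≠ 0 := mul_ne_zero h6 (pow_ne_zero _ h7)
      positivity
    unfold IG
    refine lt_of_lt_of_le h5 ?_
    have h9 : GF N g H (fun _ : ι => 0) 0 ^ 2 * (volume (c1 N (fun _ : ι => 0) 0)).toReal ≤
        ∑ t ∈ range N, GF N g H (fun _ : ι => 0) t ^ 2 * (volume (c1 N (fun _ : ι => 0) t)).toReal :=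
      single_le_sum (f := fun t => GF N g H (fun _ : ι => 0) t ^ 2 *
        (volume (c1 N (fun _ : ι => 0) t)).toReal) (fun t _ => h4 _ t) (mem_range.2 hN)
    refine h9.trans ?_
    exact single_le_sum (f := fun i : ι → ℕ => ∑ t ∈ range N, GF N g H i t ^ 2 *
      (volume (c1 N i t)).toReal) (fun i _ => sum_nonneg fun t _ => h4 i t)
      (Fintype.mem_piFinset.2 fun _ => mem_range.2 hN)

end Pool.Agent.Helper29.H2
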